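import Mathlib
import Pool.Agent.H34.WalkCS

namespace Pool.Agent.Results.MP_4ec1df_co.Theta

open Finset Pool.Agent.H34.WalkCS

/-- A zero-sum copy of the cycle of length n in K_{N,N}: distinct vertices φ 0, …, φ (n-1),
φ n = φ 0, consecutive vertices adjacent, and the n edge colours sum to zero. -/
def ZeroSumCycle {N : ℕ} {Γ : Type} [AddCommGroup Γ] (c : Sym2 (Fin N ⊕ Fin N) → Γ) (n : ℕ) :
    Prop :=
  ∃ φ : ℕ → Fin N ⊕ Fin N, φ n = φ 0 ∧ Set.InjOn φ (Set.Iio n) ∧
    (∀ i < n, (completeBipartiteGraph (Fin N) (Fin N)).Adj (φ i) (φ (i + 1))) ∧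
    ∑ i ∈ Finset.range n, c s(φ i, φ (i + 1)) = 0

/-- Every colouring of K_{N,N} by (Z/2)^d has a zero-sum copy of one of C_4, C_6, …, C_{2m}. -/
def Forces (m d N : ℕ) : Prop :=
  ∀ c : Sym2 (Fin N ⊕ Fin N) → (Fin d → ZMod 2), ∃ k, 2 ≤ k ∧ k ≤ m ∧ ZeroSumCycle c (2 * k)

theorem two_self {d : ℕ} (g : Fin d → ZMod 2) : g + g = 0 := by
  ext i
  exact CharTwo.add_self_eq_zero _

/-! ### Upper bound -/

theorem upper (m d N : ℕ) (hN : 0 < N) (h : ¬ Forces (m + 1) d N) :
    (N : ℝ) ^ m ≤ 2 * ((2 * (m + 1) : ℝ) ^ 4) ^ m * 2 ^ d := by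
  classical
  unfold Forces at h
  push Not at h
  obtain ⟨c, hc⟩ := h
  let K := completeBipartiteGraph (Fin N) (Fin N)
  let U := (Fin N ⊕ Fin N) × (Fin d → ZMod 2)
  let A : Matrix U U ℝ := fun u w => if K.Adj u.1 w.1 ∧ w.2 = u.2 + c s(u.1, w.1) then 1 else 0
  let e : U → U → ℝ := fun x y => if x.1 = y.1 then 1 else 0
  have h01 : ∀ u w, A u w = 0 ∨ A u w = 1 := fun u w => by
    simp only [A]; split_ifs <;> simp
  have hs' : ∀ u w : U, (K.Adj u.1 w.1 ∧ w.2 = u.2 + c s(u.1, w.1)) →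
      (K.Adj w.1 u.1 ∧ u.2 = w.2 + c s(w.1, u.1)) := fun u w h =>
    ⟨h.1.symm, by rw [h.2, Sym2.eq_swap (a := w.1), add_assoc, two_self, add_zero]⟩
  have hs : ∀ u w, A u w = A w u := fun u w => by
    simp only [A]
    exact if_congr ⟨hs' u w, hs' w u⟩ rfl rfl
  have hr : ∀ u, ∑ w, A u w = (N : ℝ) := fun u => by
    rw [Fintype.sum_prod_type]
    have : ∀ a, ∑ g, A u (a, g) = if K.Adj u.1 a then 1 else 0 := fun a => by
      simp only [A]
      by_cases ha : K.Adj u.1 a <;> simp [ha]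
    rw [Finset.sum_congr rfl fun a _ => this a, Fintype.sum_sum_type]
    obtain ⟨a | a, g⟩ := u <;> simp [K]
  have he0 : ∀ x y, 0 ≤ e x y := fun x y => by simp only [e]; split_ifs <;> norm_num
  have he1 : ∀ x y, e x y ≤ 1 := fun x y => by simp only [e]; split_ifs <;> norm_num
  have hes : ∀ x y, e x y = e y x := fun x y => by simp only [e, eq_comm]
  have hE : ∀ w y, ∑ x, A x w * e x y ≤ 1 := fun w y => by
    rw [Finset.sum_eq_single (y.1, w.2 + c s(w.1, y.1))]
    · rcases h01 (y.1, w.2 + c s(w.1, y.1)) w with h | h <;> rw [h] <;> simp [e]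
    · intro x _ hx
      rw [hs]
      simp only [A, e]
      split_ifs with h1 h2
      · refine absurd ?_ hx
        exact Prod.ext h2 (by rw [h1.2, h2])
      all_goals simp
    · simp
  have hD : (0 : ℝ) ≤ N := by positivity
  have step : ∀ k, 1 ≤ k → k ≤ m → H A (k + 1) ≤ (2 * (m + 1) : ℝ) ^ 4 * N * H A k := by
    intro k hk1 hkm
    refine (H_step A e N h01 hs hr he0 he1 hes hE hD k ?_).trans ?_
    · intro u f hf
      by_contra hcon
      push Not at hcon
      refine hc (k + 1) (by omega) (by omega) ⟨fun i => (f i).1, by simp only [hf.1, hf.2.1], ?_, ?_, ?_⟩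
      · intro i hi j hj hij
        simp only [Set.mem_Iio] at hi hj
        by_contra hne
        rcases lt_or_gt_of_ne hne with hlt | hlt
        · exact hcon i j hlt hj (by simp only [e]; rw [if_pos hij])
        · exact hcon j i hlt hi (by simp only [e]; rw [if_pos hij.symm])
      · intro i hi
        have := hf.2.2 i hi
        simp only [A, ne_eq, ite_eq_right_iff, one_ne_zero, imp_false, not_not] at this
        exact this.1
      · have h2 : ∀ i ∈ Finset.range (2 * (k + 1)),
            c s((f i).1, (f (i + 1)).1) = (f (i + 1)).2 - (f i).2 := by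
          intro i hi
          have := hf.2.2 i (Finset.mem_range.1 hi)
          simp only [A, ne_eq, ite_eq_right_iff, one_ne_zero, imp_false, not_not] at this
          rw [this.2]; abel
        rw [Finset.sum_congr rfl h2, Finset.sum_range_sub (fun i => (f i).2), hf.1, hf.2.1,
          sub_self]
    · have hk : (k : ℝ) ≤ m := by exact_mod_cast hkm
      have := H_nonneg A k
      gcongr
  have iter : ∀ k, k ≤ m → H A (k + 1) ≤ ((2 * (m + 1) : ℝ) ^ 4 * N) ^ k * H A 1 := by
    intro k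
    induction k with
    | zero => intro _; simp
    | succ k ih =>
      intro hk
      refine (step (k + 1) (by omega) hk).trans ?_
      rw [pow_succ' _ k, mul_assoc _ _ (H A 1)]
      exact mul_le_mul_of_nonneg_left (ih (by omega)) (by positivity)
  haveI : Nonempty U := ⟨(Sum.inl ⟨0, hN⟩, 0)⟩
  have h1 := (H_ge A N hr (m + 1)).trans (iter m le_rfl)
  rw [H_one A N h01 hr] at h1
  have hcard : (Fintype.card U : ℝ) = 2 * N * 2 ^ d := by
    simp only [U, Fintype.card_prod, Fintype.card_sum, Fintype.card_fin, Fintype.card_pi,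
      ZMod.card, Finset.prod_const, Finset.card_univ]
    push_cast; ring
  rw [hcard] at h1
  have hN' : (0 : ℝ) < (N : ℝ) ^ (m + 2) := by positivity
  refine le_of_mul_le_mul_right ?_ hN'
  calc (N : ℝ) ^ m * N ^ (m + 2) = N ^ (2 * (m + 1)) := by ring
    _ ≤ _ := h1
    _ = _ := by rw [mul_pow]; ring

/-! ### Lower bound -/

section Lower

variable {F : Type} [Field F] [CharP F 2] {N : ℕ}

def PX (a : Fin N → F) (g : F → F) : Fin N ⊕ Fin N → F
  | .inl x => g (a x)
  | .inr _ => 0

def PY (a : Fin N → F) : Fin N ⊕ Fin N → F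
  | .inl _ => 0
  | .inr y => a y

def edge (a : Fin N → F) (g : F → F) (u v : Fin N ⊕ Fin N) : F :=
  PX a g u * PY a v + PX a g v * PY a u

theorem lower_core (a : Fin N → F) (ha : Function.Injective a) (m k : ℕ) (hk2 : 2 ≤ k)
    (hkm : k ≤ m + 1) (φ : ℕ → Fin N ⊕ Fin N) (h0 : φ (2 * k) = φ 0)
    (hinj : Set.InjOn φ (Set.Iio (2 * k)))
    (hadj : ∀ i < 2 * k, (completeBipartiteGraph (Fin N) (Fin N)).Adj (φ i) (φ (i + 1)))
    (hsum : ∀ j < m, ∑ i ∈ range (2 * k), edge a (fun x => x ^ (j + 1)) (φ i) (φ (i + 1)) = 0) :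
    False := by
  classical
  have hmom : ∀ j < m + 1,
      ∑ i ∈ range (2 * k), edge a (fun x => x ^ j) (φ i) (φ (i + 1)) = 0 := by
    intro j hj
    cases j with
    | succ j => exact hsum j (by omega)
    | zero =>
      have h2 : ∀ i ∈ range (2 * k), edge a (fun x => x ^ 0) (φ i) (φ (i + 1)) =
          PY a (φ (i + 1)) - PY a (φ i) := by
        intro i hi
        have := hadj i (Finset.mem_range.1 hi)
        rw [CharTwo.sub_eq_add]
        revert this
        rcases φ i with x | x <;> rcases φ (i + 1) with y | y <;> simp [edge, PX, PY]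
      rw [Finset.sum_congr rfl h2, Finset.sum_range_sub (fun i => PY a (φ i)), h0, sub_self]
  have hpoly : ∀ p : Polynomial F, p.natDegree < m + 1 →
      ∑ i ∈ range (2 * k), edge a (fun x => p.eval x) (φ i) (φ (i + 1)) = 0 := by
    intro p hp
    have h2 : ∀ u v, edge a (fun x => p.eval x) u v =
        ∑ j ∈ range (m + 1), p.coeff j * edge a (fun x => x ^ j) u v := by
      intro u v
      rcases u with x | x <;> rcases v with y | y <;>
        simp [edge, PX, PY, Polynomial.eval_eq_sum_range' hp, Finset.sum_mul, mul_assoc]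
    simp only [h2]
    rw [Finset.sum_comm]
    refine Finset.sum_eq_zero fun j hj => ?_
    rw [← Finset.mul_sum, hmom j (Finset.mem_range.1 hj), mul_zero]
  have halt : ∀ i < 2 * k, (φ i).isLeft = true → (φ (i + 1)).isLeft = true → False := by
    intro i hi
    have := hadj i hi
    revert this
    rcases φ i with x | x <;> rcases φ (i + 1) with y | y <;> simp
  have halt' : ∀ i < 2 * k, (φ i).isLeft = true ∨ (φ (i + 1)).isLeft = true := by
    intro i hi
    have := hadj i hi
    revert this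
    rcases φ i with x | x <;> rcases φ (i + 1) with y | y <;> simp
  obtain ⟨t, ht, hl⟩ : ∃ t, t ≤ 1 ∧ (φ (t + 1)).isLeft = true := by
    rcases halt' 1 (by omega) with h | h
    · exact ⟨0, by omega, h⟩
    · exact ⟨1, by omega, h⟩
  set I : Finset ℕ := (range (2 * k)).filter (fun i => (φ i).isLeft = true) with hI
  have hIcard : I.card ≤ k := by
    rw [← Finset.card_range k]
    refine Finset.card_le_card_of_injOn (fun i => i / 2) ?_ ?_
    · intro i hi
      simp only [hI, Finset.coe_filter, Finset.mem_range, Set.mem_setOf_eq] at hi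
      simp only [Finset.coe_range, Set.mem_Iio]
      omega
    · intro i hi j hj hij
      simp only [hI, Finset.coe_filter, Finset.mem_range, Set.mem_setOf_eq] at hi hj
      simp only at hij
      by_contra hne
      rcases (by omega : j = i + 1 ∨ i = j + 1) with h | h
      · exact halt i hi.1 hi.2 (h ▸ hj.2)
      · exact halt j hj.1 hj.2 (h ▸ hi.2)
  have htI : t + 1 ∈ I := by
    simp only [hI, Finset.mem_filter, Finset.mem_range]
    exact ⟨by omega, hl⟩
  set p : Polynomial F :=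
    ∏ i ∈ I.erase (t + 1), (Polynomial.X - Polynomial.C (PX a id (φ i))) with hp
  have hdeg : p.natDegree < m + 1 := by
    rw [hp, Polynomial.natDegree_prod_of_monic _ _ (fun i _ => Polynomial.monic_X_sub_C _)]
    simp only [Polynomial.natDegree_X_sub_C, Finset.sum_const, smul_eq_mul, mul_one]
    rw [Finset.card_erase_of_mem htI]
    omega
  have hz : ∀ i < 2 * k, i ≠ t + 1 → PX a (fun x => p.eval x) (φ i) = 0 := by
    intro i hi hne
    rcases hx : φ i with x | x
    · simp only [PX, hp, Polynomial.eval_prod]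
      refine Finset.prod_eq_zero (i := i) ?_ ?_
      · simp only [hI, Finset.mem_erase, Finset.mem_filter, Finset.mem_range]
        exact ⟨hne, hi, by rw [hx]; rfl⟩
      · simp [hx, PX]
    · rfl
  have hnz : PX a (fun x => p.eval x) (φ (t + 1)) ≠ 0 := by
    obtain ⟨x, hx⟩ := Sum.isLeft_iff.1 hl
    simp only [hx, PX, hp, Polynomial.eval_prod]
    refine Finset.prod_ne_zero_iff.2 fun i hi => ?_
    simp only [hI, Finset.mem_erase, Finset.mem_filter, Finset.mem_range] at hi
    obtain ⟨y, hy⟩ := Sum.isLeft_iff.1 hi.2.2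
    simp only [hy, PX, id, Polynomial.eval_sub, Polynomial.eval_X, Polynomial.eval_C]
    intro h
    have hxy : x = y := ha (sub_eq_zero.1 h)
    exact hi.1 (hinj hi.2.1 (show t + 1 < 2 * k by omega) (by rw [hx, hy, hxy]))
  have hmain := hpoly p hdeg
  simp only [edge] at hmain
  rw [Finset.sum_add_distrib, Finset.sum_eq_single (t + 1), Finset.sum_eq_single t,
    ← mul_add] at hmain
  · have h3 := (mul_eq_zero.1 hmain).resolve_left hnz
    have hr1 : ¬ (φ (t + 1 + 1)).isLeft = true := halt (t + 1) (by omega) hl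
    have hr2 : ¬ (φ t).isLeft = true := fun h => halt t (by omega) h hl
    have h4 : φ (t + 1 + 1) = φ t := by
      revert h3 hr1 hr2
      rcases φ (t + 1 + 1) with x | x <;> rcases φ t with y | y <;> simp [PY]
      intro h
      exact ha (CharTwo.add_eq_zero.1 h)
    have := hinj (show t + 1 + 1 < 2 * k by omega) (show t < 2 * k by omega) h4
    omega
  · intro i hi hne
    have hi' := Finset.mem_range.1 hi
    by_cases hlast : i + 1 = 2 * k
    · rw [hlast, h0, hz 0 (by omega) (by omega), zero_mul]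
    · rw [hz (i + 1) (by omega) (by omega), zero_mul]
  · intro h; exact absurd (Finset.mem_range.2 (by omega)) h
  · intro i hi hne
    rw [hz i (Finset.mem_range.1 hi) hne, zero_mul]
  · intro h; exact absurd (Finset.mem_range.2 (by omega)) h

end Lower

theorem lower (m d r N : ℕ) (hr : r ≠ 0) (hd : m * r ≤ d) (hN : N ≤ 2 ^ r) :
    ¬ Forces (m + 1) d N := by
  classical
  intro h
  haveI : Fact (Nat.Prime 2) := ⟨Nat.prime_two⟩
  let F := GaloisField 2 r
  haveI : Fintype F := Fintype.ofFinite F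
  have hF : Fintype.card F = 2 ^ r := by
    rw [← Nat.card_eq_fintype_card]; exact GaloisField.card 2 r hr
  obtain ⟨a⟩ : Nonempty (Fin N ↪ F) :=
    Function.Embedding.nonempty_of_card_le (by rw [hF]; simpa using hN)
  obtain ⟨L, hL⟩ : ∃ L : (Fin m → F) →ₗ[ZMod 2] (Fin d → ZMod 2), Function.Injective L := by
    rw [← finrank_le_iff_exists_linearMap]
    rw [Module.finrank_pi_fintype, Module.finrank_pi]
    simp only [F, GaloisField.finrank 2 hr]
    simpa using hd
  let c : Sym2 (Fin N ⊕ Fin N) → (Fin d → ZMod 2) := fun s =>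
    L (Sym2.lift ⟨fun u v (j : Fin m) => edge a (fun x => x ^ (j.val + 1)) u v,
      fun u v => by ext j; simp only [edge]; ring⟩ s)
  obtain ⟨k, hk2, hkm, φ, h0, hinj, hadj, hsum⟩ := h c
  refine lower_core a a.injective m k hk2 hkm φ h0 hinj hadj fun j hj => ?_
  simp only [c, Sym2.lift_mk] at hsum
  rw [← map_sum, ← map_zero L] at hsum
  have := congrFun (hL hsum) ⟨j, hj⟩
  simpa using this

theorem result : ∀ m : ℕ, 2 ≤ m → ∃ (c C : ℝ) (d₀ : ℕ), 0 < c ∧ c ≤ C ∧ ∀ d : ℕ, d₀ ≤ d →
    ∃ b : ℕ, IsLeast {N : ℕ | Forces m d N} b ∧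
      c * (2 : ℝ) ^ ((d : ℝ) / ((m : ℝ) - 1)) ≤ b ∧
      (b : ℝ) ≤ C * (2 : ℝ) ^ ((d : ℝ) / ((m : ℝ) - 1)) := by
  intro m hm
  obtain ⟨m, rfl⟩ : ∃ m', m = m' + 1 := ⟨m - 1, by omega⟩
  have hm1 : 1 ≤ m := by omega
  have hmr : (0 : ℝ) < m := by exact_mod_cast hm1
  set K : ℝ := (2 * (m + 1) : ℝ) ^ 4 with hK
  have hK0 : 0 < K := by positivity
  refine ⟨1 / 2, 2 * K + 1, m, by norm_num, by linarith, fun d hd => ?_⟩
  have e1 : ((m + 1 : ℕ) : ℝ) - 1 = m := by push_cast; ring
  rw [e1]
  set x : ℝ := (2 : ℝ) ^ ((d : ℝ) / m) with hx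
  have hx1 : 1 ≤ x := Real.one_le_rpow (by norm_num) (by positivity)
  have hxm : x ^ m = 2 ^ d := by
    rw [hx, ← Real.rpow_mul_natCast (by norm_num), div_mul_cancel₀ _ hmr.ne', Real.rpow_natCast]
  have hup : Forces (m + 1) d (⌊2 * K * x⌋₊ + 1) := by
    by_contra hcon
    have h1 := upper m d _ (Nat.succ_pos _) hcon
    have h2 : 2 * K * x < ((⌊2 * K * x⌋₊ + 1 : ℕ) : ℝ) := by
      push_cast; exact Nat.lt_floor_add_one _
    have h3 := pow_lt_pow_left₀ h2 (by positivity) (by omega : m ≠ 0)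
    rw [mul_pow, mul_pow, hxm] at h3
    have h4 : (2 : ℝ) ≤ 2 ^ m := le_self_pow₀ (by norm_num) (by omega)
    have h5 : 2 * K ^ m * 2 ^ d ≤ 2 ^ m * K ^ m * 2 ^ d := by gcongr
    linarith
  have hne : {N : ℕ | Forces (m + 1) d N}.Nonempty := ⟨_, hup⟩
  refine ⟨sInf {N : ℕ | Forces (m + 1) d N}, ⟨Nat.sInf_mem hne, fun N hN => Nat.sInf_le hN⟩,
    ?_, ?_⟩
  · have hr : d / m ≠ 0 := (Nat.div_pos hd hm1).ne'
    have h1 : 2 ^ (d / m) < sInf {N : ℕ | Forces (m + 1) d N} := by
      by_contra hcon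
      exact lower m d (d / m) _ hr (Nat.mul_div_le d m) (not_lt.1 hcon) (Nat.sInf_mem hne)
    have h2 : ((2 : ℝ)) ^ (d / m) ≤ (sInf {N : ℕ | Forces (m + 1) d N} : ℕ) := by
      exact_mod_cast h1.le
    refine le_trans ?_ h2
    have h3 : (d : ℝ) / m ≤ ((d / m + 1 : ℕ) : ℝ) := by
      rw [div_le_iff₀ hmr]
      have : d ≤ (d / m + 1) * m := by
        have := Nat.lt_div_mul_add (a := d) hm1
        nlinarith
      exact_mod_cast this
    have h4 : x ≤ 2 ^ (d / m + 1) := by
      rw [hx, ← Real.rpow_natCast]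
      exact Real.rpow_le_rpow_of_exponent_le (by norm_num) h3
    rw [pow_succ] at h4
    linarith
  · have h1 : ((sInf {N : ℕ | Forces (m + 1) d N} : ℕ) : ℝ) ≤ ((⌊2 * K * x⌋₊ + 1 : ℕ) : ℝ) := by
      exact_mod_cast Nat.sInf_le hup
    push_cast at h1
    have h2 : (⌊2 * K * x⌋₊ : ℝ) ≤ 2 * K * x := Nat.floor_le (by positivity)
    nlinarith

end Pool.Agent.Results.MP_4ec1df_co.Theta
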